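import Mathlib

/-!
# The Mahler measure of polynomials with a zero in the division group of `2`
-/

set_option autoImplicit false

namespace Run7.h283.LR

open Polynomial

/-- the roots of an irreducible polynomial with a zero `β`, `2 ^ a β ^ n = 2 ^ b` -/
lemma roots_pow {L : Type*} [Field L] [CharZero L] {β : L} {f : ℤ[X]}
    (hf : Irreducible f) (hd : f.natDegree ≠ 0) (hβ : aeval β f = 0) {n a b : ℕ}
    (h : (2 : L) ^ a * β ^ n = 2 ^ b) {z : ℂ} (hz : aeval z f = 0) :
    (2 : ℂ) ^ a * z ^ n = 2 ^ b := by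
  have hprim : f.IsPrimitive := hf.isPrimitive hd
  have hirr : Irreducible (f.map (Int.castRingHom ℚ)) :=
    (IsPrimitive.Int.irreducible_iff_irreducible_map_cast hprim).1 hf
  obtain ⟨g, hg⟩ : ∃ g : ℚ[X], g = C ((2 : ℚ) ^ a) * X ^ n - C ((2 : ℚ) ^ b) := ⟨_, rfl⟩
  have h1 : aeval β g = 0 := by
    have e : algebraMap ℚ L 2 = 2 := by simp
    rw [hg, map_sub, map_mul, aeval_C, aeval_C, map_pow, map_pow, map_pow, aeval_X, e, h, sub_self]
  have h2 : aeval β (f.map (Int.castRingHom ℚ)) = 0 := by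
    rw [← hβ]
    have := aeval_map_algebraMap ℚ β f
    rw [← this]
    rfl
  have h3 : f.map (Int.castRingHom ℚ) ∣ g := by
    have hm : minpoly ℚ β ∣ f.map (Int.castRingHom ℚ) := minpoly.dvd ℚ β h2
    have hint : IsIntegral ℚ β := ⟨_, by
      have := monic_mul_leadingCoeff_inv hirr.ne_zero
      exact this, by
      rw [← aeval_def, map_mul, h2, zero_mul]⟩
    have h4 : f.map (Int.castRingHom ℚ) ∣ minpoly ℚ β :=
      (minpoly.irreducible hint).dvd_symm hirr hm
    exact h4.trans (minpoly.dvd ℚ β h1)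
  have h5 : aeval z (f.map (Int.castRingHom ℚ)) = 0 := by
    rw [← hz]
    have := aeval_map_algebraMap ℚ z f
    rw [← this]
    rfl
  obtain ⟨k, hk⟩ := h3
  have h6 : aeval z g = 0 := by rw [hk, map_mul, h5, zero_mul]
  have e : algebraMap ℚ ℂ 2 = 2 := by simp
  rw [hg, map_sub, map_mul, aeval_C, aeval_C, map_pow, map_pow, map_pow, aeval_X, e] at h6
  exact sub_eq_zero.1 h6

/-- **the Mahler measure is an integer at least `2`** -/
theorem mahler_pure {L : Type*} [Field L] [CharZero L] {β : L} {f : ℤ[X]}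
    (hf : Irreducible f) (hβ : aeval β f = 0) {n a b : ℕ} (hn : 0 < n)
    (h : (2 : L) ^ a * β ^ n = 2 ^ b) (hab : a ≠ b) :
    2 ≤ (f.map (Int.castRingHom ℂ)).mahlerMeasure := by
  have hd : f.natDegree ≠ 0 := by
    intro h0
    rw [natDegree_eq_zero] at h0
    obtain ⟨m, rfl⟩ := h0
    rw [aeval_C] at hβ
    have h2 : m = 0 := by simpa using hβ
    rw [h2, map_zero] at hf
    exact not_irreducible_zero hf
  obtain ⟨F, hF⟩ : ∃ F : ℂ[X], F = f.map (Int.castRingHom ℂ) := ⟨_, rfl⟩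
  have hinj : Function.Injective (Int.castRingHom ℂ) := Int.cast_injective
  have hF0 : F ≠ 0 := by
    rw [hF]
    exact (Polynomial.map_ne_zero_iff hinj).2 hf.ne_zero
  have hdF : F.natDegree = f.natDegree := by
    rw [hF]
    exact natDegree_map_eq_of_injective hinj f
  have hsp : F.Splits := IsAlgClosed.splits F
  have hcard : Multiset.card F.roots = F.natDegree := (splits_iff_card_roots.1 hsp)
  have hroot : ∀ z ∈ F.roots, (2 : ℂ) ^ a * z ^ n = 2 ^ b := by
    intro z hz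
    refine roots_pow hf hd hβ h ?_
    have h1 := (mem_roots hF0).1 hz
    rw [IsRoot.def, hF, eval_map] at h1
    exact h1
  obtain ⟨z₀, hz₀⟩ : ∃ z, z ∈ F.roots := by
    apply Multiset.exists_mem_of_ne_zero
    intro h0
    rw [h0, Multiset.card_zero] at hcard
    omega
  obtain ⟨ρ, hρ⟩ : ∃ ρ : ℝ, ρ = ‖z₀‖ := ⟨_, rfl⟩
  have hnorm : ∀ z ∈ F.roots, (2 : ℝ) ^ a * ‖z‖ ^ n = 2 ^ b := by
    intro z hz
    have := congrArg norm (hroot z hz)
    rw [norm_mul, norm_pow, norm_pow, norm_pow] at this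
    simpa using this
  have hρ0 : 0 ≤ ρ := by rw [hρ]; exact norm_nonneg _
  have hsame : ∀ z ∈ F.roots, ‖z‖ = ρ := by
    intro z hz
    have h1 := hnorm z hz
    have h2 := hnorm z₀ hz₀
    rw [← hρ] at h2
    have h3 : ‖z‖ ^ n = ρ ^ n := by
      have h4 : (2 : ℝ) ^ a * ‖z‖ ^ n = 2 ^ a * ρ ^ n := h1.trans h2.symm
      exact mul_left_cancel₀ (by positivity) h4
    exact (pow_left_inj₀ (norm_nonneg z) hρ0 hn.ne').1 h3
  have hρn := hnorm z₀ hz₀
  rw [← hρ] at hρn
  have hM : F.mahlerMeasure = ‖F.leadingCoeff‖ * (max 1 ρ) ^ f.natDegree := by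
    rw [mahlerMeasure_eq_leadingCoeff_mul_prod_roots]
    congr 1
    rw [Multiset.map_congr rfl (fun z hz => by rw [hsame z hz] : ∀ z ∈ F.roots,
      max 1 ‖z‖ = max 1 ρ), Multiset.map_const', Multiset.prod_replicate, hcard, hdF]
  have hc0 : ‖F.coeff 0‖ = ‖F.leadingCoeff‖ * ρ ^ f.natDegree := by
    rw [hsp.coeff_zero_eq_leadingCoeff_mul_prod_roots, norm_mul, norm_mul, norm_pow, norm_neg,
      norm_one, one_pow, one_mul]
    congr 1
    have e : ‖F.roots.prod‖ = (F.roots.map fun z => ‖z‖).prod := by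
      have := map_multiset_prod (normHom : ℂ →*₀ ℝ) F.roots
      exact this
    rw [e, Multiset.map_congr rfl hsame, Multiset.map_const', Multiset.prod_replicate, hcard, hdF]
  have hl : F.leadingCoeff = (f.leadingCoeff : ℂ) := by
    rw [hF, leadingCoeff_map_of_injective hinj]
    rfl
  have hc : F.coeff 0 = (f.coeff 0 : ℂ) := by
    rw [hF, coeff_map]
    rfl
  have hlc : 1 ≤ |f.leadingCoeff| := Int.one_le_abs (leadingCoeff_ne_zero.2 hf.ne_zero)
  rw [hl, Complex.norm_intCast] at hM hc0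
  rw [hc, Complex.norm_intCast] at hc0
  have hlcR : (1 : ℝ) ≤ |(f.leadingCoeff : ℝ)| := by exact_mod_cast hlc
  have hρ1 : ρ ≠ 1 := by
    rintro h1
    rw [h1, one_pow, mul_one] at hρn
    have h2 : (2 : ℕ) ^ a = 2 ^ b := by exact_mod_cast hρn
    exact hab (Nat.pow_right_injective le_rfl h2)
  have hρpos : 0 < ρ := by
    rcases hρ0.eq_or_lt with h1 | h1
    · exfalso
      rw [← h1, zero_pow hn.ne', mul_zero] at hρn
      have : (0 : ℝ) < 2 ^ b := by positivity
      linarith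
    · exact h1
  rw [← hF]
  rcases lt_or_gt_of_ne hρ1 with h1 | h1
  · rw [max_eq_left h1.le, one_pow, mul_one] at hM
    rw [hM]
    have h2 : ρ ^ f.natDegree < 1 := pow_lt_one₀ hρ0 h1 hd
    have h3 : 0 < |(f.coeff 0 : ℝ)| := by
      rw [hc0]
      positivity
    have h4 : 1 ≤ |f.coeff 0| := by
      have : f.coeff 0 ≠ 0 := by
        intro h5
        rw [h5] at h3
        simp at h3
      exact Int.one_le_abs this
    have h5 : (1 : ℝ) ≤ |(f.coeff 0 : ℝ)| := by exact_mod_cast h4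
    have h6 : (1 : ℝ) < |(f.leadingCoeff : ℝ)| := by
      rw [hc0] at h5
      nlinarith
    have h7 : 1 < |f.leadingCoeff| := by exact_mod_cast h6
    have h8 : (2 : ℤ) ≤ |f.leadingCoeff| := h7
    exact_mod_cast h8
  · rw [max_eq_right h1.le, ← hc0] at hM
    rw [hM]
    have h2 : 1 < ρ ^ f.natDegree := one_lt_pow₀ h1 hd
    have h6 : (1 : ℝ) < |(f.coeff 0 : ℝ)| := by
      rw [hc0]
      nlinarith
    have h7 : 1 < |f.coeff 0| := by exact_mod_cast h6
    have h8 : (2 : ℤ) ≤ |f.coeff 0| := h7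
    exact_mod_cast h8

end Run7.h283.LR
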